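import Mathlib
import Pool.Agent.Work.MP_395897_nt.Defs
import Pool.Agent.Work.MP_395897_nt.Final

/-!
# MP_395897_nt: condition 2 does not imply condition 1

For every prime `l` and every number field `F` there is a continuous character
`ρ : G_F → GL_1(ℚ̄_l)`, unramified at all but finitely many finite places, whose Weil–Deligne
representations at all places `v ∤ l` are integral and pure of weight `1` (condition 2), but which
is not de Rham at any place above `l` (so condition 1, and with it condition 3, fails).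
-/

open NumberField IsDedekindDomain Pool.Agent.Work.MP_395897_nt

namespace Pool.Agent.Results.MP_395897_nt.HalfCyclotomic

universe u

theorem result (l : ℕ) [Fact l.Prime] (F : Type u) [Field F] [NumberField F] :
    ∃ ρ : GalRep F l 1, ρ.IsIrreducible ∧
      {v : HeightOneSpectrum (𝓞 F) | ¬ ρ.UnramifiedAt v}.Finite ∧
      ρ.Condition2 ∧ ¬ ρ.Condition1 ∧
      ∀ ι : AlgebraicClosure F →+* PadicAlgCl l, ¬ ρ.IsDeRhamAt ι := by
  obtain ⟨ψ, hψ, ⟨d, hd, hψd⟩, U, hU, hψU⟩ := exists_psi l
  have hdR : ∀ ι : AlgebraicClosure F →+* PadicAlgCl l, ¬ (halfRep F ψ hψ).IsDeRhamAt ι :=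
    fun ι => halfRep_not_deRham ψ hψ U hU hψU ι
  refine ⟨halfRep F ψ hψ, halfRep_irreducible ψ hψ, halfRep_finite ψ hψ,
    halfRep_condition2 ψ hψ d hd hψd, fun h => ?_, hdR⟩
  obtain ⟨ι⟩ := exists_embedding (F := F) (l := l)
  exact hdR ι (h ι).1

end Pool.Agent.Results.MP_395897_nt.HalfCyclotomic
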